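import Pool.Agent.Run7.h105.FinN
import Pool.Agent.Run7.h105.Ns

/-!
# The number of pressure-only determining functionals for the planar Navier-Stokes equations
(trajectories that are real-analytic in space)
-/

set_option autoImplicit false

namespace Pool.Agent.Results.MP_ed9623_an.AnalyticForces

open Set Filter Topology MeasureTheory Pool.Agent.H754R3.PR Run7.h105

/-- Finite pressure-only determining systems exist, and `N ≥ 1` functionals of the pressure
suffice exactly if the stationary members of the family embed into `ℝ^N`. -/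
theorem result (Ω : Set P2) (hΩ : IsOpen Ω) (hconn : IsConnected Ω) (hb : Bornology.IsBounded Ω)
    (hbd : BdryClass 2 Ω) (ν : ℝ) (hν : 0 < ν) (g1 g2 : P2 → ℝ) (A : Set Fld)
    (hA : IsFamilyN Ω ν g1 g2 A) (hT : ∀ a ∈ A, IsTraj Ω ν g1 g2 a.1 a.2.1 a.2.2) :
    (∃ N, 0 < N ∧ Embeds (steadyVel Ω A) N) ∧
    (∀ N, 0 < N → Embeds (steadyVel Ω A) N →
      ∃ Φ : Fin N → BoundedContinuousFunction (L2 Ω) ℝ,
        Separates Ω A (fun i => (Φ i : L2 Ω → ℝ)) ∧
        Determines Ω A (fun i => (Φ i : L2 Ω → ℝ))) ∧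
    (∀ (N : ℕ) (Φ : Fin N → L2 Ω → ℝ), (∀ i, Continuous (Φ i)) → Determines Ω A Φ →
      Embeds (steadyVel Ω A) N) :=
  number_of_uniq hΩ hconn hb hν hA fun a ha b hb' h =>
    traj_uniq hΩ hconn.isPreconnected hb hbd hν (hT a ha) (hT b hb')
      ⟨fun _ => 0, fun t x hx => by rw [h t x hx, add_zero]⟩

end Pool.Agent.Results.MP_ed9623_an.AnalyticForces
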