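import Pool.Agent.Run7.h105.FinN

/-!
# The number of pressure-only determining functionals for the planar Navier-Stokes equations
(forces whose curl does not vanish at some strictly convex boundary point)
-/

set_option autoImplicit false

namespace Pool.Agent.Results.MP_ed9623_an.GenericForces

open Set Filter Topology MeasureTheory Pool.Agent.H754R3.PR Run7.h105

/-- Finite pressure-only determining systems exist, and `N ≥ 1` functionals of the pressure
suffice exactly if the stationary members of the family embed into `ℝ^N`. -/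
theorem result (Ω : Set P2) (hΩ : IsOpen Ω) (hconn : IsConnected Ω) (hb : Bornology.IsBounded Ω)
    (hbd : BdryClass 2 Ω) (ν : ℝ) (hν : 0 < ν) (g1 g2 : P2 → ℝ) (hg1 : ContDiff ℝ 1 g1)
    (hg2 : ContDiff ℝ 1 g2) (hg : ∃ z, Curved Ω z ∧ d1 g2 z - d2 g1 z ≠ 0) (A : Set Fld)
    (hA : IsFamilyN Ω ν g1 g2 A) :
    (∃ N, 0 < N ∧ Embeds (steadyVel Ω A) N) ∧
    (∀ N, 0 < N → Embeds (steadyVel Ω A) N →
      ∃ Φ : Fin N → BoundedContinuousFunction (L2 Ω) ℝ,
        Separates Ω A (fun i => (Φ i : L2 Ω → ℝ)) ∧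
        Determines Ω A (fun i => (Φ i : L2 Ω → ℝ))) ∧
    (∀ (N : ℕ) (Φ : Fin N → L2 Ω → ℝ), (∀ i, Continuous (Φ i)) → Determines Ω A Φ →
      Embeds (steadyVel Ω A) N) :=
  number_of_uniq hΩ hconn hb hν hA fun a ha b hb' h t x hx =>
    generic_uniq hΩ hconn.isPreconnected hb hbd hν hg1 hg2 hg (a := t - 1) (b := t + 1)
      (hA.traj a ha) (hA.traj b hb') ⟨fun _ => 0, fun s _ y hy => by rw [h s y hy, add_zero]⟩ t
      ⟨by linarith, by linarith⟩ x hx

end Pool.Agent.Results.MP_ed9623_an.GenericForces
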